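import Pool.Agent.H567.PP.All3

/-!
# Goldbach representations in the residue classes of EVERY modulus: the lower bound for `q ≤ x ^ (4 / 5 - ρ)`, the
asymptotic formula, also with a short first summand, for `q ≤ x ^ (2 / 3 - ρ)`

There is a set `D` of at most `(log x)^c` integers, whose radicals are all larger than any given power of `log x`,
such that the following holds for EVERY modulus `q` and every residue class `a` modulo `q` for which `gcd(a, q)` is not
divisible by a member of `D`. These are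

* all classes `a` with `rad (gcd (a, q)) ≤ (log x)^B`, in particular all classes with `gcd (a, q) ≤ (log x)^B`, for
  EVERY modulus `q`, and ALL classes, for instance the multiples of `q`, for every modulus `q` with
  `rad q ≤ (log x)^B` (such as `q = 10 ^ k`: prescribed last digits);
* all but at most `q / (log x)^B` of the `q` residue classes, for EVERY modulus `q`;
* ALL classes of every modulus which is not divisible by a member of `D`.

(1) If `q ≤ x ^ (4 / 5 - ρ)`, then all but at most `x / (q (log x)^A)` of the even integers `n ≤ x`, `n ≡ a (mod q)`,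
satisfy the lower bound of the problem with `δ = 1 / 8`: `g n ≥ (1 / 8) HL n ≥ (1 / 8) n / (log n)²`.

(2) If `q ≤ x ^ (2 / 3 - ρ)`, then all but at most `x / (q (log x)^A)` of these integers satisfy the asymptotic formula
of Hardy and Littlewood, so the lower bound with `δ = 13 / 10`, and even SIMULTANEOUSLY for all windows `U < p ≤ V` with
`q n ^ (1 / 3 + ρ) ≤ V ≤ n / 2` the number of the representations `n = p + p'` with the first prime in the window is
the expected one with an error of at most `V / (log n)^W`.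

The bound is nontrivial for every modulus and each of these classes. For `q = 1` the first summand may be as small as
`n ^ (1 / 3 + ρ)`. In the starting library there are only lower bounds up to `x ^ (4 / 5 - ρ)` and asymptotic formulas
up to `x ^ (2 / 3 - ρ)` for the classes with `gcd (a, q) ≤ (log x)^T`, and lower bounds for all classes of the moduli
which are not divisible by members of a set `D` of large integers; nothing for a given modulus with large prime powers,
like `10 ^ k`, and a class like `0`, or for a class such as `a = m h` with a large `h ∣ q`; no short first summands.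

Definitions used (in `Pool.Agent.H560R3.GB`): `g n`: the number of ordered pairs of primes `(p₁, p₂)` with
`p₁ + p₂ = n`; `sing n = 2 C₂ ∏_{p ∣ n, p > 2} (p - 1) / (p - 2)`, where `C₂ = ∏_{p > 2} (1 - 1 / (p - 1) ^ 2)`;
`HL n = sing n * (n / (log n)²)`, the prediction of Hardy and Littlewood.

Proof. (a) `H567/HW`: for `Y < n ≤ 2 Y` and a length `P` the mean square over the `n ≡ a (mod q)` of
`∑_{b ≤ P} Λ(b) (Λ - Λ_z)(n - b)`, where `Λ_z` is a sieve model of a level of a power of `log Y`, is reduced to sums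
of `Λ - Λ_z` over almost all intervals of the length `P`, twisted by characters; the primes are decomposed into sums of
type I of the level `Y ^ (2 / 3)` and bilinear sums with a variable between `Y ^ κ` and `Y ^ (1 / 3 + κ)`, estimated by
hybrids of the large sieve and of Gallagher's lemma. There are at most `(log Y) ^ c` bad primitive characters (of all
conductors) which induce all the characters with large sums. The lower bound uses in the same way a minorant of `Λ`
(`T6/H3/FF`, `T6/H3/FR` of the library). (b) `H567/PP/X/Shl2`: a bad character `χ` of conductor `f` contributes to the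
class `a` only through `∑_b Λ(b) χ(a - b)`; this correlation of the primes with a shifted character is small if
`gcd (a, f) (log x)^K < f`, for every modulus and class: the shifted character is expanded into the characters `χ ξ`, where the Jacobi
sums are at most `q sqrt (gcd (a, f) / f)` and at most `q / sqrt (cond ξ)`. So only the classes with a large common
divisor with `f` remain, whence the set `D` and the condition on `gcd (a, q)`. (c) `H567/PP`: a primitive character
`χ` modulo `d`, where `rad d ≤ (log x)^B` and `d > 8 (log x)^B`, is NOT bad. By a formula of Postnikov's type for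
moduli with a small radical, `χ(1 + D w)` is the exponential of a polynomial in `w`, and Vinogradov's mean value
theorem gives `∑_{n ≤ N} χ(n) n^{it} ≪ N / (log x)^K` already for `N ≥ exp((log x)^(1 - η))`, also for `χ²`; a
pretentious argument (Halasz, Granville and Koukoulopoulos) passes from this to `∑_{p ≤ N} χ(p) p^{it}` for the same
short `N`, without zeros of `L`-functions.
-/

set_option autoImplicit false

namespace Pool.Agent.Results.MP_dd84fd_nt.EveryModulusEveryClass

open Finset
open Pool.Agent.H560R3.GB (g HL sing)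

/-- The radical: the product of the prime factors. -/
def rad (n : ℕ) : ℕ := ∏ p ∈ n.primeFactors, p

/-- The number of the primes `p` with `U < p ≤ V` for which `n - p` is a prime. -/
def count (n U V : ℕ) : ℕ := ((Ioc U V).filter (fun p => p.Prime ∧ (n - p).Prime)).card

/-- The expected number: the singular series times the sum of `1 / (log b log (n - b))` over `U < b ≤ V`
(the term `b = 1` is zero). -/
noncomputable def expected (n U V : ℕ) : ℝ :=
  sing n * ∑ b ∈ Ioc U V, 1 / (Real.log b * Real.log ((n - b : ℕ) : ℝ))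

/-- The lower bound with one eighth of the predicted number. -/
def Lower (n : ℕ) : Prop := (1 / 8) * HL n ≤ g n ∧ (1 / 8) * ((n : ℝ) / Real.log n ^ 2) ≤ g n

/-- (i) The number of all representations is the one predicted by Hardy and Littlewood up to a relative error of at
most `ε`, and it is at least `1.3 n / (log n)²`; (ii) simultaneously for all `U ≤ V` with
`q n ^ (1 / 3 + ρ) ≤ V ≤ n / 2` the number of the representations with the first prime in `(U, V]` is the expected one
with an error of at most `V / (log n)^W`; (iii) if also `V - U ≥ V / (log n)^W`, then it is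
`sing n (V - U) / (log V log n)` up to a relative error of at most `ε`. -/
def Holds (ε ρ : ℝ) (W q n : ℕ) : Prop :=
  (|(g n : ℝ) - HL n| ≤ ε * HL n ∧ 13 / 10 * ((n : ℝ) / Real.log n ^ 2) ≤ g n) ∧
  (∀ U V : ℕ, U ≤ V → (q : ℝ) * (n : ℝ) ^ (1 / 3 + ρ) ≤ V → 2 * V ≤ n →
    |(count n U V : ℝ) - expected n U V| ≤ V / Real.log n ^ W) ∧
  (∀ U V : ℕ, U ≤ V → (q : ℝ) * (n : ℝ) ^ (1 / 3 + ρ) ≤ V → 2 * V ≤ n → 0 < V →
    (V : ℝ) / Real.log n ^ W ≤ (V : ℝ) - U →
    |(count n U V : ℝ) - sing n * (((V : ℝ) - U) / (Real.log V * Real.log n))| ≤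
      ε * (sing n * (((V : ℝ) - U) / (Real.log V * Real.log n))))

/-- The even integers `0 < n ≤ x` with `n ≡ a (mod q)` for which `F n` is false. -/
def exceptional (F : ℕ → Prop) (x : ℝ) (q : ℕ) (a : ℤ) : Set ℕ :=
  {n : ℕ | 0 < n ∧ (n : ℝ) ≤ x ∧ 2 ∣ n ∧ (n : ℤ) ≡ a [ZMOD q] ∧ ¬ F n}

/-- The class `a` modulo `q` is excluded by `D`: a member of `D` divides `a` and `q`. -/
def Excluded (D : Finset ℕ) (q : ℕ) (a : ℤ) : Prop := ∃ d ∈ D, d ∣ Int.gcd a q

theorem cnt_eq (n : ℕ) : Pool.Agent.W93.PG.cnt n 0 n = g n := by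
  unfold Pool.Agent.W93.PG.cnt g
  refine card_bij (fun p _ => (p, n - p)) ?_ ?_ ?_
  · intro p hp
    rw [mem_filter, mem_Ioc] at hp
    rw [mem_filter, HasAntidiagonal.mem_antidiagonal]
    exact ⟨by simp only; omega, hp.2⟩
  · intro p _ p' _ h
    exact congrArg Prod.fst h
  · rintro ⟨a, b⟩ h
    rw [mem_filter, HasAntidiagonal.mem_antidiagonal] at h
    obtain ⟨h1, h2, h3⟩ := h
    simp only at h1 h2 h3
    have ha := h2.pos
    refine ⟨a, ?_, ?_⟩
    · rw [mem_filter, mem_Ioc]
      refine ⟨⟨ha, by omega⟩, h2, ?_⟩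
      have : n - a = b := by omega
      rw [this]
      exact h3
    · have : n - a = b := by omega
      simp [this]

theorem lower (ρ : ℝ) (hρ : 0 < ρ) (A : ℕ) :
    ∃ c : ℕ, ∀ B : ℕ, ∃ x₀ : ℝ, ∀ x : ℝ, x₀ ≤ x → ∃ D : Finset ℕ, (D.card : ℝ) ≤ Real.log x ^ c ∧
      (∀ d ∈ D, Real.log x ^ B < (rad d : ℝ)) ∧
      ∀ q : ℕ, 1 ≤ q → (q : ℝ) ≤ x ^ (4 / 5 - ρ) → ∀ a : ℤ, (∀ d ∈ D, ¬ d ∣ Int.gcd a q) →
        (exceptional Lower x q a).Finite ∧ ((exceptional Lower x q a).ncard : ℝ) ≤ x / (q * Real.log x ^ A) := by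
  have h := Pool.Agent.H567.PP.fru_all Lower 0 ⟨1, fun n hn _ hw => ?_⟩ ρ hρ A
  · exact h
  · have h1 := hw 0 n (by omega) le_rfl (by simp)
    rw [cnt_eq] at h1
    have h2 := Pool.Agent.H567.HW.one_le_SS n
    have h2' : sing n = Pool.Agent.H567.HW.SS n := rfl
    rw [← h2'] at h2
    have h3 : (0 : ℝ) ≤ (n : ℝ) / Real.log n ^ 2 := by positivity
    have h4 : (1 / 8) * HL n ≤ g n := by
      refine le_trans (le_of_eq ?_) h1
      unfold Pool.Agent.H560R3.GB.HL
      push_cast
      ring
    refine ⟨h4, le_trans ?_ h4⟩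
    unfold Pool.Agent.H560R3.GB.HL
    nlinarith

/-- the number of the multiples of `d` in a system of residues -/
theorem card_dvd {q d : ℕ} (hd : 0 < d) (hdq : d ∣ q) : ((range q).filter (fun a => d ∣ a)).card = q / d := by
  obtain ⟨k, rfl⟩ := hdq
  rw [Nat.mul_div_cancel_left k hd]
  have h1 : (range (d * k)).filter (fun a => d ∣ a) = (range k).image (fun i => d * i) := by
    ext a
    rw [mem_filter, mem_image, mem_range]
    constructor
    · rintro ⟨h1, i, rfl⟩
      exact ⟨i, mem_range.2 (Nat.lt_of_mul_lt_mul_left h1), rfl⟩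
    · rintro ⟨i, hi, rfl⟩
      exact ⟨Nat.mul_lt_mul_of_pos_left (mem_range.1 hi) hd, Dvd.intro i rfl⟩
  rw [h1, card_image_of_injective _ (fun i j h => Nat.eq_of_mul_eq_mul_left hd h), card_range]

theorem rad_le (d : ℕ) (hd : 0 < d) : rad d ≤ d := Nat.le_of_dvd hd (Nat.prod_primeFactors_dvd d)

open Classical in
/-- few classes are excluded -/
theorem few_classes {D : Finset ℕ} {L : ℝ} {c B : ℕ} (hL : 1 ≤ L) (hc : (D.card : ℝ) ≤ L ^ c)
    (hD : ∀ d ∈ D, L ^ (B + c) < (rad d : ℝ)) (hD0 : ∀ d ∈ D, 0 < d) {q : ℕ} (hq : 1 ≤ q) :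
    (((range q).filter (fun a : ℕ => Excluded D q a)).card : ℝ) ≤ q / L ^ B := by
  have hL0 : 0 < L := by linarith
  have hsub : (range q).filter (fun a : ℕ => Excluded D q a) ⊆
      (D.filter (fun d => d ∣ q)).biUnion (fun d => (range q).filter (fun a => d ∣ a)) := by
    intro a ha
    rw [mem_filter] at ha
    obtain ⟨ha, d, hd, hda⟩ := ha
    rw [Int.gcd_natCast_natCast] at hda
    rw [mem_biUnion]
    refine ⟨d, ?_, ?_⟩
    · rw [mem_filter]
      exact ⟨hd, hda.trans (Nat.gcd_dvd_right _ _)⟩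
    · rw [mem_filter]
      exact ⟨ha, hda.trans (Nat.gcd_dvd_left _ _)⟩
  have h1 : (((range q).filter (fun a : ℕ => Excluded D q a)).card : ℝ) ≤
      ∑ d ∈ D.filter (fun d => d ∣ q), (((range q).filter (fun a => d ∣ a)).card : ℝ) := by
    exact_mod_cast (card_le_card hsub).trans card_biUnion_le
  have h2 : ∀ d ∈ D.filter (fun d => d ∣ q), (((range q).filter (fun a => d ∣ a)).card : ℝ) ≤ q / L ^ (B + c) := by
    intro d hd
    rw [mem_filter] at hd
    have hd0 := hD0 d hd.1
    have hd0r : (0 : ℝ) < d := by exact_mod_cast hd0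
    rw [card_dvd hd0 hd.2]
    have h3 : L ^ (B + c) ≤ (d : ℝ) := by
      refine (hD d hd.1).le.trans ?_
      exact_mod_cast rad_le d hd0
    calc ((q / d : ℕ) : ℝ) ≤ (q : ℝ) / d := Nat.cast_div_le
      _ ≤ q / L ^ (B + c) := div_le_div_of_nonneg_left (Nat.cast_nonneg _) (by positivity) h3
  refine h1.trans ((sum_le_sum h2).trans ?_)
  rw [sum_const, nsmul_eq_mul]
  have h4 : ((D.filter (fun d => d ∣ q)).card : ℝ) ≤ L ^ c := by
    refine le_trans ?_ hc
    exact_mod_cast card_filter_le _ _
  calc ((D.filter (fun d => d ∣ q)).card : ℝ) * (q / L ^ (B + c)) ≤ L ^ c * (q / L ^ (B + c)) := by gcongr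
    _ = q / L ^ B := by
        rw [pow_add]
        field_simp

open Classical in
/-- For all `ε, ρ > 0`, `A` and `W` there is `c` such that for all `B` and all sufficiently large real `x` there is a
finite set `D` of at most `(log x) ^ c` integers, whose radicals are larger than `(log x) ^ B`, with the following
properties, for EVERY integer `q ≥ 1`. (a) A class `a` modulo `q` with `rad (gcd (a, q)) ≤ (log x)^B` is not excluded
by `D`; (b) at most `q / (log x)^B` of the classes modulo `q` are excluded by `D`; (c) for every integer `a` which is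
not excluded by `D` (modulo `q`): if `q ≤ x ^ (4 / 5 - ρ)`, then all but at most `x / (q (log x)^A)` of the even
integers `0 < n ≤ x`, `n ≡ a (mod q)`, satisfy `g n ≥ (1 / 8) HL n` and `g n ≥ (1 / 8) n / (log n)²`; if
`q ≤ x ^ (2 / 3 - ρ)`, then all but at most `x / (q (log x)^A)` of them satisfy `Holds ε ρ W q n`. -/
theorem result (ε ρ : ℝ) (hε : 0 < ε) (hρ : 0 < ρ) (A W : ℕ) :
    ∃ c : ℕ, ∀ B : ℕ, ∃ x₀ : ℝ, ∀ x : ℝ, x₀ ≤ x →
    ∃ D : Finset ℕ, (D.card : ℝ) ≤ Real.log x ^ c ∧ (∀ d ∈ D, Real.log x ^ B < (rad d : ℝ)) ∧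
    ∀ q : ℕ, 1 ≤ q →
      (∀ a : ℤ, (rad (Int.gcd a q) : ℝ) ≤ Real.log x ^ B → ¬ Excluded D q a) ∧
      (((range q).filter (fun a : ℕ => Excluded D q a)).card : ℝ) ≤ q / Real.log x ^ B ∧
      ∀ a : ℤ, ¬ Excluded D q a →
        ((q : ℝ) ≤ x ^ (4 / 5 - ρ) → (exceptional Lower x q a).Finite ∧
          ((exceptional Lower x q a).ncard : ℝ) ≤ x / (q * Real.log x ^ A)) ∧
        ((q : ℝ) ≤ x ^ (2 / 3 - ρ) → (exceptional (Holds ε ρ W q) x q a).Finite ∧
          ((exceptional (Holds ε ρ W q) x q a).ncard : ℝ) ≤ x / (q * Real.log x ^ A)) := by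
  obtain ⟨c₁, h₁⟩ := lower ρ hρ A
  obtain ⟨c₂, h₂⟩ := Pool.Agent.H567.PP.reg_univ A W hρ hε
  obtain ⟨c, hc⟩ : ∃ c, c = c₁ + c₂ + 1 := ⟨_, rfl⟩
  refine ⟨c, fun B => ?_⟩
  obtain ⟨x₁, h₁⟩ := h₁ (B + c)
  obtain ⟨x₂, h₂⟩ := h₂ (B + c)
  refine ⟨max (max x₁ x₂) (Real.exp 8), fun x hx => ?_⟩
  have hxx₁ : x₁ ≤ x := (le_max_left _ _).trans ((le_max_left _ _).trans hx)
  have hxx₂ : x₂ ≤ x := (le_max_right _ _).trans ((le_max_left _ _).trans hx)
  have hxe : Real.exp 8 ≤ x := (le_max_right _ _).trans hx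
  have hx0 : 0 < x := (Real.exp_pos _).trans_le hxe
  have hL8 : 8 ≤ Real.log x := (Real.le_log_iff_exp_le hx0).2 hxe
  have hL1 : 1 ≤ Real.log x := by linarith
  obtain ⟨D₁, hc₁, hr₁, hD₁⟩ := h₁ x hxx₁
  obtain ⟨D₂, hc₂, hr₂, hD₂⟩ := h₂ x hxx₂
  have hrad : ∀ d ∈ D₁ ∪ D₂, Real.log x ^ (B + c) < (rad d : ℝ) := by
    intro d hd
    rcases mem_union.1 hd with h | h
    · exact hr₁ d h
    · exact hr₂ d h
  have hcard : ((D₁ ∪ D₂).card : ℝ) ≤ Real.log x ^ c := by
    have h3 : ((D₁ ∪ D₂).card : ℝ) ≤ D₁.card + D₂.card := by exact_mod_cast card_union_le _ _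
    have h4 : Real.log x ^ c₁ ≤ Real.log x ^ (c₁ + c₂) := pow_le_pow_right₀ hL1 (by omega)
    have h5 : Real.log x ^ c₂ ≤ Real.log x ^ (c₁ + c₂) := pow_le_pow_right₀ hL1 (by omega)
    have h6 : 0 < Real.log x ^ (c₁ + c₂) := by positivity
    calc ((D₁ ∪ D₂).card : ℝ) ≤ 2 * Real.log x ^ (c₁ + c₂) := by linarith
      _ ≤ Real.log x * Real.log x ^ (c₁ + c₂) := by gcongr; linarith
      _ = Real.log x ^ c := by rw [hc]; ring
  -- the number zero
  obtain ⟨D, hDd⟩ : ∃ D : Finset ℕ, D = (D₁ ∪ D₂).filter (fun d => 0 < d) := ⟨_, rfl⟩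
  have hDsub : D ⊆ D₁ ∪ D₂ := by rw [hDd]; exact filter_subset _ _
  have hD0 : ∀ d ∈ D, 0 < d := by
    intro d hd
    rw [hDd, mem_filter] at hd
    exact hd.2
  have hDc : (D.card : ℝ) ≤ Real.log x ^ c := by
    refine le_trans ?_ hcard
    exact_mod_cast card_le_card hDsub
  have hBc : Real.log x ^ B ≤ Real.log x ^ (B + c) := pow_le_pow_right₀ hL1 (by omega)
  refine ⟨D, hDc, fun d hd => lt_of_le_of_lt hBc (hrad d (hDsub hd)), fun q hq => ⟨?_, ?_, ?_⟩⟩
  · rintro a ha ⟨d, hd, hda⟩
    have hg : 0 < Int.gcd a q := Int.gcd_pos_of_ne_zero_right _ (by exact_mod_cast (by omega : q ≠ 0))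
    have h3 := hrad d (hDsub hd)
    have h4 : rad d ≤ rad (Int.gcd a q) := by
      unfold rad
      refine Finset.prod_le_prod_of_subset_of_one_le' (Nat.primeFactors_mono hda (by omega)) fun p hp _ => ?_
      exact (Nat.prime_of_mem_primeFactors hp).pos
    have h5 : (rad d : ℝ) ≤ rad (Int.gcd a q) := by exact_mod_cast h4
    linarith
  · exact few_classes hL1 hDc (fun d hd => hrad d (hDsub hd)) hD0 hq
  · intro a ha
    have hg : 0 < Int.gcd a q := Int.gcd_pos_of_ne_zero_right _ (by exact_mod_cast (by omega : q ≠ 0))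
    have hno : ∀ d ∈ D₁ ∪ D₂, ¬ d ∣ Int.gcd a q := by
      intro d hd hda
      apply ha
      refine ⟨d, ?_, hda⟩
      rw [hDd, mem_filter]
      exact ⟨hd, Nat.pos_of_dvd_of_pos hda hg⟩
    constructor
    · intro hqx
      exact hD₁ q hq hqx a (fun d hd => hno d (mem_union_left _ hd))
    · intro hqx
      exact hD₂ q hq hqx a (fun d hd => hno d (mem_union_right _ hd))

end Pool.Agent.Results.MP_dd84fd_nt.EveryModulusEveryClass
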