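import Pool.Agent.H523.CM32

set_option autoImplicit false

/-!
# The number of Goldbach representations over a finite field, in every short interval

The question in the polynomial ring over an arbitrary finite field with `q` elements: the
polynomials of degree `n` take the place of the integers of size `X = q ^ n`, `n` the place of
`log X`, and a disc (the polynomials `B₀ + h` with `deg h < m`) the place of an interval of length
`q ^ m`.
-/

namespace Pool.Agent.Results.MP_dd84fd_nt.GoldbachDiscs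

open Polynomial Filter
open Pool.Agent.H341R2.Sharp (Mon mem_Mon)
open Pool.Agent.H523.FF (Ir mem_Ir PL mem_PL IrLE mem_IrLE two_le_card)
open Pool.Agent.H523

open scoped Topology

/-- the number of the representations `B = α P₁ + β P₂` with monic irreducible polynomials
`P₁, P₂` of degree `n` (ordered pairs) -/
noncomputable def reps {F : Type} [Field F] (α β : F) (n : ℕ) (B : F[X]) : ℕ :=
  {p : F[X] × F[X] | (p.1.Monic ∧ Irreducible p.1 ∧ p.1.natDegree = n) ∧
    (p.2.Monic ∧ Irreducible p.2 ∧ p.2.natDegree = n) ∧ C α * p.1 + C β * p.2 = B}.ncard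

/-- the local factor: `1 + 1 / (|P| - 1)` if `P` divides `B`, and `1 - 1 / (|P| - 1) ^ 2` otherwise,
`|P| = q ^ deg P` -/
noncomputable def localFactor {F : Type} [Field F] [Fintype F] (B P : F[X]) : ℝ :=
  open scoped Classical in
  if P ∣ B then 1 + 1 / ((Fintype.card F : ℝ) ^ P.natDegree - 1)
  else 1 - 1 / ((Fintype.card F : ℝ) ^ P.natDegree - 1) ^ 2

/-- the product of the local factors over the monic irreducible polynomials of degree at most `y`;
its limit for `y → ∞` is the singular series of `B` -/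
noncomputable def partialProduct {F : Type} [Field F] [Fintype F] (B : F[X]) (y : ℕ) : ℝ :=
  ∏ᶠ P ∈ {P : F[X] | P.Monic ∧ Irreducible P ∧ P.natDegree ≤ y}, localFactor B P

/-- `B` is nonzero and not obstructed; an obstruction exists only over the field with two elements,
where `B` must be divisible by `X` and `X + 1` (the analogue of `n` even) -/
def Admissible {F : Type} [Field F] [Fintype F] (B : F[X]) : Prop :=
  B ≠ 0 ∧ (Fintype.card F = 2 → X ∣ B ∧ X + 1 ∣ B)

lemma partialProduct_eq {F : Type} [Field F] [Fintype F] (B : F[X]) (y : ℕ) :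
    partialProduct B y = CM.SP y B := by
  classical
  unfold partialProduct CM.SP
  have h : {P : F[X] | P.Monic ∧ Irreducible P ∧ P.natDegree ≤ y} =
      ((IrLE F y : Finset F[X]) : Set F[X]) := by
    ext P
    rw [Set.mem_ofPred_eq, Finset.mem_coe, mem_IrLE]
  rw [h, finprod_mem_coe_finset]
  refine Finset.prod_congr rfl (fun P hP => ?_)
  rw [CM.cB_values (mem_IrLE.mp hP).2.1]
  unfold localFactor CM.gP
  split_ifs
  · rfl
  · rw [one_div_pow]; ring

lemma reps_eq {F : Type} [Field F] [Fintype F] {α β : F} (hβ : β ≠ 0) (n : ℕ) (B : F[X]) :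
    CM.TT α β n B = (n:ℝ) ^ 2 * reps α β n B := by
  classical
  unfold CM.TT
  have h1 : ∀ f ∈ Mon F n, CM.th n f * CM.th n (CM.conj2 α β B f) =
      if f ∈ Ir F n ∧ CM.conj2 α β B f ∈ Ir F n then (n:ℝ) ^ 2 else 0 := by
    intro f _
    unfold CM.th
    by_cases h1 : f ∈ Ir F n
    · by_cases h2 : CM.conj2 α β B f ∈ Ir F n
      · simp only [h1, h2, if_true, and_self]
        ring
      · simp only [h2, if_false, and_false, mul_zero]
    · simp only [h1, if_false, false_and, zero_mul]
  rw [Finset.sum_congr rfl h1, ← Finset.sum_filter, Finset.sum_const, nsmul_eq_mul, mul_comm]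
  congr 2
  unfold reps
  rw [← Set.ncard_coe_finset]
  apply Set.ncard_congr (fun f _ => (f, CM.conj2 α β B f))
  · intro f hf
    rw [Finset.mem_coe, Finset.mem_filter] at hf
    have e := (CM.conj2_eq (α := α) hβ (B := B) (f := f) (g := CM.conj2 α β B f)).mp rfl
    exact ⟨mem_Ir.mp hf.2.1, mem_Ir.mp hf.2.2, e⟩
  · intro a b _ _ h
    exact (Prod.ext_iff.mp h).1
  · rintro ⟨f, g⟩ hfg
    obtain ⟨h1, h2, h3⟩ := hfg
    have e := (CM.conj2_eq (α := α) hβ (B := B) (f := f) (g := g)).mpr h3
    refine ⟨f, ?_, ?_⟩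
    · rw [Finset.mem_coe, Finset.mem_filter, mem_Mon]
      refine ⟨⟨h1.1, h1.2.2⟩, mem_Ir.mpr h1, ?_⟩
      rw [e]
      exact mem_Ir.mpr h2
    · exact Prod.ext rfl e

lemma local_of_admissible {F : Type} [Field F] [Fintype F] {B : F[X]} (h : Admissible B) :
    Fintype.card F = 2 → ∀ P : F[X], P.Monic → P.natDegree = 1 → P ∣ B := by
  intro hc P hP hd
  obtain ⟨h1, h2⟩ := h.2 hc
  rw [hP.eq_X_add_C hd]
  -- the two elements
  have h3 : P.coeff 0 = 0 ∨ P.coeff 0 = 1 := by
    by_contra hcon
    push Not at hcon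
    classical
    have h4 : ({0, 1, P.coeff 0} : Finset F).card = 3 := by
      rw [Finset.card_insert_of_notMem, Finset.card_insert_of_notMem, Finset.card_singleton]
      · rw [Finset.mem_singleton]; exact fun h => hcon.2 h.symm
      · rw [Finset.mem_insert, Finset.mem_singleton]
        rintro (h | h)
        · exact zero_ne_one h
        · exact hcon.1 h.symm
    have h5 := Finset.card_le_univ ({0, 1, P.coeff 0} : Finset F)
    omega
  rcases h3 with h3 | h3
  · rw [h3, C_0, add_zero]; exact h1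
  · rw [h3, C_1]; exact h2

/-- **Goldbach representations in short intervals over finite fields.** There is an absolute
constant `K` such that for every finite field, every `n ≥ 1`, every `m ≤ n` and every disc of size
`q ^ m`: the number of the representations has the Hardy-Littlewood value in mean square over the
disc with a square-root saving `q ^ (m / 2)` in the size of the disc, and all but at most
`K n ^ 3 q ^ ((m + 1) / 2)` of the admissible `B` in the disc have at least `q ^ n / (18 n ^ 2)`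
representations. -/
theorem result : ∃ K : ℝ, ∀ (F : Type) [Field F] [Fintype F] (n m : ℕ), 1 ≤ n → m ≤ n →
    ∀ α β : F, α ≠ 0 → β ≠ 0 → ∀ B₀ : F[X], (B₀ - C (α + β) * X ^ n).degree < (n : WithBot ℕ) →
    ∃ S : F[X] → ℝ, (∀ B : F[X], B ≠ 0 → Tendsto (partialProduct B) atTop (𝓝 (S B))) ∧
      (∀ B : F[X], Admissible B → 1 / 9 ≤ S B) ∧
      ∑ᶠ B ∈ {B : F[X] | (B - B₀).degree < (m : WithBot ℕ) ∧ B ≠ 0},
        ((n:ℝ) ^ 2 * (reps α β n B : ℝ) - S B * (Fintype.card F : ℝ) ^ n) ^ 2 ≤
          K * (n:ℝ) ^ 3 * ((Fintype.card F : ℝ) ^ n) ^ 2 * (Fintype.card F : ℝ) ^ ((m + 1) / 2) ∧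
      ({B : F[X] | (B - B₀).degree < (m : WithBot ℕ) ∧ Admissible B ∧
        (reps α β n B : ℝ) < (Fintype.card F : ℝ) ^ n / (18 * (n:ℝ) ^ 2)}.ncard : ℝ) ≤
          K * (n:ℝ) ^ 3 * (Fintype.card F : ℝ) ^ ((m + 1) / 2) := by
  classical
  set K₀ : ℝ := 144 * (1 + Real.exp 3) + 320 * Real.exp 11 + 196 * Real.exp 22 with hK₀
  have hK₀0 : 0 < K₀ := by positivity
  refine ⟨324 * K₀, fun F _ _ n m hn hmn α β hα hβ B₀ hB₀ => ?_⟩
  have hq := two_le_card (F := F)
  have hnr : (1:ℝ) ≤ n := by exact_mod_cast hn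
  -- the singular series
  have hS0 : ∀ B : F[X], ∃ S : ℝ, B ≠ 0 → Tendsto (fun y => CM.SP y B) atTop (𝓝 S) := by
    intro B
    by_cases hB : B = 0
    · exact ⟨0, fun h => absurd hB h⟩
    · obtain ⟨S, hS⟩ := CM.SP_converges hB
      exact ⟨S, fun _ => hS⟩
  choose S hS using hS0
  have hmain := CM.goldbach_sq hn hmn hα hβ hB₀ S hS
  rw [← hK₀] at hmain
  set q : ℝ := (Fintype.card F : ℝ) with hqd
  have hq0 : 0 < q := by linarith
  have hexp : q ^ (2 * n + m - m / 2) = (q ^ n) ^ 2 * q ^ ((m + 1) / 2) := by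
    rw [← pow_mul, ← pow_add]
    congr 1
    omega
  rw [hexp] at hmain
  have hlow : ∀ B : F[X], Admissible B → 1 / 9 ≤ S B := by
    intro B hB
    refine ge_of_tendsto (hS B hB.1) ?_
    filter_upwards [eventually_ge_atTop 1] with y hy
    exact CM.SP_lower (local_of_admissible hB) hy
  -- the disc
  have hset : {B : F[X] | (B - B₀).degree < (m : WithBot ℕ) ∧ B ≠ 0} =
      ((((PL F m).filter (fun h => B₀ + h ≠ 0)).image (fun h => B₀ + h) : Finset F[X]) : Set F[X]) := by
    ext B
    rw [Set.mem_ofPred_eq, Finset.mem_coe, Finset.mem_image]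
    constructor
    · rintro ⟨h1, h2⟩
      refine ⟨B - B₀, ?_, by ring⟩
      rw [Finset.mem_filter, mem_PL]
      refine ⟨h1, ?_⟩
      rw [add_sub_cancel]
      exact h2
    · rintro ⟨h, h1, rfl⟩
      rw [Finset.mem_filter, mem_PL] at h1
      refine ⟨?_, h1.2⟩
      rw [add_sub_cancel_left]
      exact h1.1
  have hsum : ∑ᶠ B ∈ {B : F[X] | (B - B₀).degree < (m : WithBot ℕ) ∧ B ≠ 0},
        ((n:ℝ) ^ 2 * (reps α β n B : ℝ) - S B * q ^ n) ^ 2 =
      ∑ h ∈ (PL F m).filter (fun h => B₀ + h ≠ 0),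
        (CM.TT α β n (B₀ + h) - q ^ n * S (B₀ + h)) ^ 2 := by
    rw [hset, finsum_mem_coe_finset, Finset.sum_image (fun a _ b _ h => add_left_cancel h)]
    refine Finset.sum_congr rfl (fun h _ => ?_)
    rw [reps_eq hβ]
    ring
  refine ⟨S, ?_, hlow, ?_, ?_⟩
  · intro B hB
    exact (hS B hB).congr (fun y => (partialProduct_eq B y).symm)
  · rw [hsum]
    refine hmain.trans ?_
    have h1 : 0 ≤ (n:ℝ) ^ 3 * ((q ^ n) ^ 2 * q ^ ((m + 1) / 2)) := by positivity
    nlinarith
  · -- the exceptional set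
    set E := (PL F m).filter (fun h => Admissible (B₀ + h) ∧
      (reps α β n (B₀ + h) : ℝ) < q ^ n / (18 * (n:ℝ) ^ 2)) with hE
    have hE1 : {B : F[X] | (B - B₀).degree < (m : WithBot ℕ) ∧ Admissible B ∧
        (reps α β n B : ℝ) < q ^ n / (18 * (n:ℝ) ^ 2)} =
        ((E.image (fun h => B₀ + h) : Finset F[X]) : Set F[X]) := by
      ext B
      rw [Set.mem_ofPred_eq, Finset.mem_coe, Finset.mem_image]
      constructor
      · rintro ⟨h1, h2, h3⟩
        refine ⟨B - B₀, ?_, by ring⟩
        rw [hE, Finset.mem_filter, mem_PL, add_sub_cancel]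
        exact ⟨h1, h2, h3⟩
      · rintro ⟨h, h1, rfl⟩
        rw [hE, Finset.mem_filter, mem_PL] at h1
        rw [add_sub_cancel_left]
        exact h1
    have hcard : ({B : F[X] | (B - B₀).degree < (m : WithBot ℕ) ∧ Admissible B ∧
        (reps α β n B : ℝ) < q ^ n / (18 * (n:ℝ) ^ 2)}.ncard : ℝ) ≤ (E.card : ℝ) := by
      rw [hE1, Set.ncard_coe_finset]
      exact_mod_cast Finset.card_image_le
    refine hcard.trans ?_
    have h1 : (E.card : ℝ) * (q ^ n / 18) ^ 2 ≤
        K₀ * (n:ℝ) ^ 3 * ((q ^ n) ^ 2 * q ^ ((m + 1) / 2)) := by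
      refine le_trans ?_ hmain
      rw [← nsmul_eq_mul, ← Finset.sum_const]
      calc ∑ _h ∈ E, (q ^ n / 18) ^ 2
          ≤ ∑ h ∈ E, (CM.TT α β n (B₀ + h) - q ^ n * S (B₀ + h)) ^ 2 := by
            refine Finset.sum_le_sum (fun h hh => ?_)
            rw [hE, Finset.mem_filter] at hh
            have h2 := hlow _ hh.2.1
            have h3 := hh.2.2
            rw [lt_div_iff₀ (by positivity)] at h3
            rw [reps_eq hβ]
            have h4 : 0 < q ^ n := by positivity
            have h5 : q ^ n * (1 / 9) ≤ q ^ n * S (B₀ + h) := mul_le_mul_of_nonneg_left h2 h4.le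
            have h6 : q ^ n / 18 ≤ q ^ n * S (B₀ + h) - (n:ℝ) ^ 2 * (reps α β n (B₀ + h) : ℝ) := by
              linarith
            calc (q ^ n / 18) ^ 2 ≤
                (q ^ n * S (B₀ + h) - (n:ℝ) ^ 2 * (reps α β n (B₀ + h) : ℝ)) ^ 2 :=
                  pow_le_pow_left₀ (by positivity) h6 2
              _ = _ := by ring
        _ ≤ _ := by
            apply Finset.sum_le_sum_of_subset_of_nonneg
            · intro h hh
              rw [hE, Finset.mem_filter] at hh
              rw [Finset.mem_filter]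
              exact ⟨hh.1, hh.2.1.1⟩
            · intro _ _ _
              exact sq_nonneg _
    have h7 : 0 < (q ^ n / 18) ^ 2 := by positivity
    rw [← le_div_iff₀ h7] at h1
    refine h1.trans (le_of_eq ?_)
    field_simp
    ring

end Pool.Agent.Results.MP_dd84fd_nt.GoldbachDiscs
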