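import Pool.Agent.H561.E3.U17

/-!
# `N = p + q₁ q₂`: the asymptotic formula for almost all even `N` of very short intervals

For every `ε > 0` there is `η > 0` such that for all `A`, `B` and all large `M` the following holds. Let
`exp ((log M) ^ (1 - η)) ≤ H ≤ M` (for instance `H = M ^ θ` with any fixed `θ > 0`) and let `0 ≤ α < β ≤ 1` with
`β - α ≥ (log M) ^ (-B)`. For all even `N ∈ [M, M + H)`, with at most `H / (log M) ^ A` exceptions, the number of the
representations `N = p + q₁ q₂` with primes `p ∈ (α N, β N]`, `q₁`, `q₂` (the number of the `p`) is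

`𝔖(N) (β - α) N log log N / (log N) ^ 2`,  `𝔖(N) = ∏_p (1 - 1 / p) ^ (-2) (1 - ω_N(p) / p)`, `ω_N(p) = 1` if `p ∣ N`, else `2`,

up to a factor in `[1 - ε, 1 + ε]`. All products of two primes are counted, without any restriction on their prime factors.

Proof (`Pool.Agent.H561.E3`): the products with `q₁ ≤ exp ((log M) ^ (1 - η))` by the circle method in short windows (minor arcs
from the bilinear structure, major arcs from Matomäki–Radziwiłł type mean values), the main term from the Bombieri–Vinogradov
theorem on average over `q₁`, the remaining products by an upper bound sieve uniform in `q₁ ≤ √N`.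
-/

set_option autoImplicit false

namespace Pool.Agent.Results.MP_dd84fd_nt.PrimePlusTwoPrimesAsymptotic

open Finset Filter

/-- `m` is the product of two primes -/
def ProductOfTwoPrimes (m : ℕ) : Prop := ∃ q₁ q₂ : ℕ, q₁.Prime ∧ q₂.Prime ∧ m = q₁ * q₂

open Classical in
/-- the number of the primes `p < N` in `(α N, β N]` for which `N - p` is the product of two primes -/
noncomputable def representations (α β : ℝ) (N : ℕ) : ℕ :=
  ((range N).filter (fun p : ℕ => p.Prime ∧ α * N < p ∧ (p : ℝ) ≤ β * N ∧ ProductOfTwoPrimes (N - p))).card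

/-- the singular series of Goldbach's problem: the number of the `n` modulo `p` with `n (N - n) ≡ 0` is `1` if `p ∣ N` and `2`
otherwise -/
noncomputable def singularSeries (N : ℕ) : ℝ :=
  ∏' p : Nat.Primes, (1 - 1 / ((p : ℕ) : ℝ))⁻¹ ^ 2 * (1 - (if (p : ℕ) ∣ N then 1 else 2) / ((p : ℕ) : ℝ))

/-- the expected number of representations -/
noncomputable def expected (α β : ℝ) (N : ℕ) : ℝ :=
  singularSeries N * ((β - α) * N) * Real.log (Real.log N) / (Real.log N) ^ 2

open Classical in
/-- the even `N ∈ [M, M + H)` for which the formula does not hold up to a relative error of at most `ε` -/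
noncomputable def exceptional (ε α β : ℝ) (M H : ℕ) : Finset ℕ :=
  (Ico M (M + H)).filter
    (fun N => Even N ∧ ¬ |(representations α β N : ℝ) - expected α β N| ≤ ε * expected α β N)

/-- **`N = p + q₁ q₂`: the asymptotic formula for almost all even `N` in intervals of length `exp ((log M) ^ (1 - η))`.** -/
theorem result (ε : ℝ) (hε : 0 < ε) : ∃ η : ℝ, 0 < η ∧ ∀ A B : ℕ, ∃ M₀ : ℕ, ∀ M : ℕ, M₀ ≤ M →
    ∀ H : ℕ, Real.exp ((Real.log M) ^ (1 - η)) ≤ H → H ≤ M →
    ∀ α β : ℝ, 0 ≤ α → β ≤ 1 → 1 / (Real.log M) ^ B ≤ β - α →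
    ((exceptional ε α β M H).card : ℝ) ≤ H / (Real.log M) ^ A := by
  obtain ⟨η, h1, _, h2⟩ := Pool.Agent.H561.E3.goldbach ε hε
  refine ⟨η, h1, fun A B => ?_⟩
  obtain ⟨M₀, h3⟩ := h2 A B
  refine ⟨M₀, fun M hM H hH hHM α β hα hβ hαβ => ?_⟩
  exact h3 M hM H hH hHM α β hα hβ hαβ

end Pool.Agent.Results.MP_dd84fd_nt.PrimePlusTwoPrimesAsymptotic
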